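import Pool.Agent.L7h3.GL.Stm

/-!
# Project GL, part MB: `#T` bad elements
-/

set_option autoImplicit false

namespace Pool.Agent.L7h12.GL

open Cardinal Pool.Agent.L7h3.GL

variable {L : Type} [CompleteLattice L]

/-- two elements covering `b` -/
theorem cv_eq {b a c : L} (ha : b ⋖ a) (hc : b ⋖ c) (h : c ≤ a) : c = a := by
  rcases h.lt_or_eq with h1 | h1
  · exact absurd h1 (ha.2 hc.1)
  · exact h1

theorem gen_of {b z : L} {T : Set L} (hb : b ≤ z)
    (h : z ≤ b ⊔ sSup {a | a ∈ T ∧ a ≤ z}) : Gen b T z :=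
  le_antisymm h (sup_le hb (sSup_le fun _ hc => hc.2))

theorem gen_self {b a : L} {T : Set L} (hT : Cv b T) (ha : a ∈ T) : Gen b T a :=
  gen_of (hT a ha).1.le (le_sup_of_le_right (le_sSup ⟨ha, le_rfl⟩))

theorem cov_w {ρ : L → ℕ} (hρ : Rk ρ) {b : L} {T : Set L} (hT : Cv b T) {x x' z : L}
    (hx : x ∈ T) (hx' : x' ∈ T) (hne : x ≠ x') (hz : z ∈ T) (hzw : z ≤ x ⊔ x') :
    z ⋖ x ⊔ x' := by
  have hxw : x ⋖ x ⊔ x' := hρ.sm b x' x (hT x' hx') (hT x hx).1.le
    (fun h => hne (cv_eq (hT x hx) (hT x' hx') h).symm)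
  by_cases hzx : z = x
  · rw [hzx]; exact hxw
  · have h1 : ¬ z ≤ x := fun h => hzx (cv_eq (hT x hx) (hT z hz) h)
    have h2 : x ⊔ z = x ⊔ x' := by
      have h3 : x < x ⊔ z := lt_of_le_of_ne le_sup_left
        (fun h => h1 (by rw [h]; exact le_sup_right))
      have h4 : x ⊔ z ≤ x ⊔ x' := sup_le le_sup_left hzw
      rcases h4.lt_or_eq with h5 | h5
      · exact absurd h5 (hxw.2 h3)
      · exact h5
    have h6 := hρ.sm b x z (hT x hx) (hT z hz).1.le
      (fun h => hzx (cv_eq (hT z hz) (hT x hx) h).symm)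
    rwa [sup_comm z x, h2] at h6

theorem join_w {ρ : L → ℕ} (hρ : Rk ρ) {b : L} {T : Set L} (hT : Cv b T) {x x' z z' : L}
    (hx : x ∈ T) (hx' : x' ∈ T) (hne : x ≠ x') (hz : z ∈ T) (hzw : z ≤ x ⊔ x')
    (hz' : z' ∈ T) (hzw' : z' ≤ x ⊔ x') (hne' : z ≠ z') : z ⊔ z' = x ⊔ x' := by
  have h := cov_w hρ hT hx hx' hne hz hzw
  have h1 : ¬ z' ≤ z := fun h => hne' (cv_eq (hT z hz) (hT z' hz') h).symm
  have h3 : z < z ⊔ z' := lt_of_le_of_ne le_sup_left
    (fun h => h1 (by rw [h]; exact le_sup_right))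
  rcases (sup_le hzw hzw').lt_or_eq with h5 | h5
  · exact absurd h5 (h.2 h3)
  · exact h5

theorem s_MB (_h1 : S_LINA) (h2 : S_LINB) (h3 : S_FR) (h4 : S_FG) : S_MB := by
  classical
  intro L _ ρ hρ hN b T hT hinf hbad hyp
  have hκ : ℵ₀ ≤ #T := by
    have := hinf.to_subtype
    exact Cardinal.infinite_iff.mp this
  -- two bad elements
  have hbinf : Infinite {x // x ∈ T ∧ #(Con x T) < #T} :=
    Cardinal.infinite_iff.mpr (hκ.trans (not_lt.mp hbad))
  obtain ⟨⟨x, hx, hxb⟩, ⟨x', hx', hxb'⟩, hne0⟩ :=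
    exists_pair_ne {x // x ∈ T ∧ #(Con x T) < #T}
  have hne : x ≠ x' := fun h => hne0 (Subtype.ext h)
  obtain ⟨w, hw⟩ : ∃ w, w = x ⊔ x' := ⟨_, rfl⟩
  have hbw : b ≤ w := by rw [hw]; exact (hT x hx).1.le.trans le_sup_left
  have hcov : ∀ z ∈ T, z ≤ w → z ⋖ w := by
    intro z hz hzw
    rw [hw] at hzw ⊢
    exact cov_w hρ hT hx hx' hne hz hzw
  have hjoin : ∀ z ∈ T, ∀ z' ∈ T, z ≤ w → z' ≤ w → z ≠ z' → z ⊔ z' = w := by
    intro z hz z' hz' hzw hzw' hne'
    rw [hw] at hzw hzw' ⊢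
    exact join_w hρ hT hx hx' hne hz hzw hz' hzw' hne'
  have hxw : x ≤ w := by rw [hw]; exact le_sup_left
  have hxw' : x' ≤ w := by rw [hw]; exact le_sup_right
  have hwt : w ≤ tp b T := by
    rw [hw]
    exact sup_le (le_sup_of_le_right (le_sSup hx)) (le_sup_of_le_right (le_sSup hx'))
  by_cases hwt2 : w = tp b T
  · -- every element of `T` is covered by the top
    have hall : ∀ a ∈ T, a ⋖ tp b T := by
      intro a ha
      rw [← hwt2]
      exact hcov a ha (by rw [hwt2]; exact le_sup_of_le_right (le_sSup ha))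
    refine ⟨fun a => [a], ?_, ?_⟩
    · intro a ha
      refine ⟨⟨rfl, List.isChain_singleton a, ?_⟩, ?_⟩
      · intro z hz
        simp only [List.getLast?_singleton, Option.some.injEq] at hz
        rw [← hz]
        exact hall a ha
      · intro z hz
        rw [List.mem_singleton] at hz
        rw [hz]
        exact gen_self hT ha
    · intro a _ a' _ haa y hy hy'
      rw [List.mem_singleton] at hy hy'
      exact haa (hy.symm.trans hy')
  -- the main case
  let G : Set L := {a | a ∈ T ∧ ¬ a ≤ w}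
  have hG : #G < #T := by
    refine lt_of_le_of_lt ?_ (Cardinal.mul_lt_of_lt hκ hxb hxb')
    have := h2 L ρ hρ b T x x' hT hx hx' hne
    rw [← hw] at this
    exact this
  let Y : Set L := {z | z ∈ T ∧ z ≤ w ∧ ∃ G₀ : Finset G,
    z ≤ b ⊔ sSup (Subtype.val '' (G₀ : Set G)) ∧ ¬ w ≤ b ⊔ sSup (Subtype.val '' (G₀ : Set G))}
  have hY : #Y < #T := by
    have hYle : #Y ≤ #(Finset G) := by
      have hch : ∀ z : Y, ∃ G₀ : Finset G,
          z.1 ≤ b ⊔ sSup (Subtype.val '' (G₀ : Set G)) ∧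
            ¬ w ≤ b ⊔ sSup (Subtype.val '' (G₀ : Set G)) := fun z => z.2.2.2
      choose f hf1 hf2 using hch
      refine Cardinal.mk_le_of_injective (f := f) ?_
      intro z z' hzz
      by_contra hne'
      apply hf2 z
      rw [← hjoin z.1 z.2.1 z'.1 z'.2.1 z.2.2.1 z'.2.2.1 (fun h => hne' (Subtype.ext h))]
      refine sup_le (hf1 z) ?_
      rw [hzz]
      exact hf1 z'
    refine lt_of_le_of_lt hYle ?_
    rcases finite_or_infinite G with hfin | hinf'
    · exact lt_of_lt_of_le (Cardinal.lt_aleph0_of_finite _) hκ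
    · rw [Cardinal.mk_finset_of_infinite]
      exact hG
  let X₀ : Set L := {x, x'} ∪ Y
  have hX₀T : ∀ z ∈ X₀, z ∈ T ∧ z ≤ w := by
    rintro z (hz | hz)
    · rcases hz with rfl | hz
      · exact ⟨hx, hxw⟩
      · rw [Set.mem_singleton_iff] at hz
        rw [hz]
        exact ⟨hx', hxw'⟩
    · exact ⟨hz.1, hz.2.1⟩
  let T' : Set L := X₀ ∪ G
  have hT'T : T' ⊆ T := by
    rintro z (hz | hz)
    · exact (hX₀T z hz).1
    · exact hz.1
  have hT'c : #T' < #T := by
    refine lt_of_le_of_lt (Cardinal.mk_union_le X₀ G) (Cardinal.add_lt_of_lt hκ ?_ hG)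
    refine lt_of_le_of_lt (Cardinal.mk_union_le {x, x'} Y) (Cardinal.add_lt_of_lt hκ ?_ hY)
    exact lt_of_lt_of_le (Cardinal.lt_aleph0_of_finite _) hκ
  have hxT' : x ∈ T' := Or.inl (Or.inl (by simp))
  have hxT'' : x' ∈ T' := Or.inl (Or.inl (by simp))
  have htp : tp b T' = tp b T := by
    apply le_antisymm
    · exact sup_le_sup_left (sSup_le_sSup hT'T) b
    · refine sup_le le_sup_left (sSup_le ?_)
      intro a ha
      by_cases haw : a ≤ w
      · refine haw.trans ?_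
        rw [hw]
        exact sup_le (le_sup_of_le_right (le_sSup hxT')) (le_sup_of_le_right (le_sSup hxT''))
      · exact le_sup_of_le_right (le_sSup (Or.inr ⟨ha, haw⟩))
  have hgen : ∀ z, Gen b T' z → Gen b T z := by
    intro z hz
    refine gen_of ?_ ?_
    · rw [hz]; exact le_sup_left
    · conv_lhs => rw [hz]
      refine sup_le_sup_left (sSup_le_sSup ?_) b
      intro a ha
      exact ⟨hT'T ha.1, ha.2⟩
  have hnt : T'.Nontrivial := ⟨x, hxT', x', hxT'', hne⟩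
  obtain ⟨p', hp', hd'⟩ := hyp T' hT'T hT'c hnt
  have hgw : Gen b T w := by
    refine gen_of hbw ?_
    conv_lhs => rw [hw]
    exact sup_le (le_sup_of_le_right (le_sSup ⟨hx, hxw⟩))
      (le_sup_of_le_right (le_sSup ⟨hx', hxw'⟩))
  obtain ⟨p'', hp'', hd''⟩ := h3 L ρ hρ b T {z | z ∈ T ∧ z ≤ w ∧ z ∉ X₀} w hT hbw hgw
    (fun z hz => ⟨hcov z hz.1 hz.2.1, (hT z hz.1).1.le, gen_self hT hz.1⟩)
  have hcase : ∀ a ∈ T, a ∉ T' → a ∈ {z | z ∈ T ∧ z ≤ w ∧ z ∉ X₀} := by
    intro a ha haT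
    refine ⟨ha, ?_, fun h => haT (Or.inl h)⟩
    by_contra h
    exact haT (Or.inr ⟨ha, h⟩)
  -- the two systems are disjoint
  have hdis : ∀ a ∈ T', ∀ a' ∈ {z | z ∈ T ∧ z ≤ w ∧ z ∉ X₀}, ∀ y ∈ p' a, y ∈ p'' a' → False := by
    intro a ha a' ha' y hy hy'
    have hyg := (hp' a ha).2 y hy
    obtain ⟨_, hay, hwy⟩ := (hp'' a' ha').2 y hy'
    obtain ⟨A₀, hA₀, hA₀f, hA₀e⟩ := h4 L ρ hρ hN b {c | c ∈ T' ∧ c ≤ y}
    have hye : y = b ⊔ sSup A₀ := by
      rw [← hA₀e]
      exact hyg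
    have hA₀G : A₀ ⊆ G := by
      intro c hc
      obtain ⟨hcT, hcy⟩ := hA₀ hc
      rcases hcT with hc1 | hc1
      · exfalso
        obtain ⟨hcT, hcw⟩ := hX₀T c hc1
        apply hwy
        rw [← hjoin c hcT a' ha'.1 hcw ha'.2.1 (fun h => ha'.2.2 (h ▸ hc1))]
        exact sup_le hcy hay
      · exact hc1
    apply ha'.2.2
    refine Or.inr ⟨ha'.1, ha'.2.1, ?_⟩
    refine ⟨(hA₀f.preimage (Subtype.val_injective.injOn) : (Subtype.val ⁻¹' A₀ : Set G).Finite).toFinset, ?_⟩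
    have him : (Subtype.val '' (((hA₀f.preimage (Subtype.val_injective.injOn) :
        (Subtype.val ⁻¹' A₀ : Set G).Finite).toFinset : Finset G) : Set G) : Set L) = A₀ := by
      rw [Set.Finite.coe_toFinset, Subtype.image_preimage_coe]
      exact Set.inter_eq_right.mpr hA₀G
    rw [him, ← hye]
    exact ⟨hay, hwy⟩
  refine ⟨fun a => if a ∈ T' then p' a else p'' a, ?_, ?_⟩
  · intro a ha
    by_cases haT : a ∈ T'
    · simp only [if_pos haT]
      refine ⟨?_, fun z hz => hgen z ((hp' a haT).2 z hz)⟩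
      rw [← htp]
      exact (hp' a haT).1
    · simp only [if_neg haT]
      have h5 := hp'' a (hcase a ha haT)
      exact ⟨h5.1, fun z hz => (h5.2 z hz).1⟩
  · intro a ha a' ha' haa
    by_cases haT : a ∈ T' <;> by_cases haT' : a' ∈ T'
    · simp only [if_pos haT, if_pos haT']
      exact hd' a haT a' haT' haa
    · simp only [if_pos haT, if_neg haT']
      intro y hy hy'
      exact hdis a haT a' (hcase a' ha' haT') y hy hy'
    · simp only [if_neg haT, if_pos haT']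
      intro y hy hy'
      exact hdis a' haT' a (hcase a ha haT) y hy' hy
    · simp only [if_neg haT, if_neg haT']
      exact hd'' a (hcase a ha haT) a' (hcase a' ha' haT') haa

end Pool.Agent.L7h12.GL
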